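import Pool.Agent.R34.DP.Stm

/-!
Project DP (helper34), MP_04ae38_an: isotonic regression on the line has the properties `GoodOp`.
-/

open MeasureTheory ProbabilityTheory Set Filter
open scoped NNReal ENNReal Topology

namespace R34.DP

namespace Line

theorem adm_add {h : ℝ → ℝ} (hh : Adm h) (c : ℝ) : Adm (fun x => h x + c) := by
  obtain ⟨⟨K, hK⟩, B, hB⟩ := hh
  refine ⟨⟨K, LipschitzWith.of_dist_le_mul fun x y => ?_⟩, B + |c|, fun x => ?_⟩
  · rw [dist_add_right]
    exact hK.dist_le_mul x y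
  · exact (abs_add_le _ _).trans (add_le_add (hB x) le_rfl)

theorem adm_cont {h : ℝ → ℝ} (hh : Adm h) : Continuous h := by
  obtain ⟨⟨K, hK⟩, _⟩ := hh
  exact hK.continuous

theorem adm_int {h : ℝ → ℝ} (hh : Adm h) (c : ℝ) : Integrable (fun t => h t - c) g1 := by
  obtain ⟨B, hB⟩ := hh.2
  refine Integrable.of_bound ((adm_cont hh).sub continuous_const).aestronglyMeasurable (B + |c|)
    (Filter.Eventually.of_forall fun t => ?_)
  rw [Real.norm_eq_abs]
  exact (abs_sub _ _).trans (add_le_add (hB t) le_rfl)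

theorem phi_nonneg {h : ℝ → ℝ} {c a b : ℝ} (H : ∀ t, a < t → t ≤ b → c ≤ h t) :
    0 ≤ phi h c a b :=
  setIntegral_nonneg measurableSet_Ioc fun t ht => sub_nonneg.2 (H t ht.1 ht.2)

theorem phi_add {h : ℝ → ℝ} (hh : Adm h) {c a m b : ℝ} (h1 : a ≤ m) (h2 : m ≤ b) :
    phi h c a b = phi h c a m + phi h c m b := by
  unfold phi
  rw [← Ioc_union_Ioc_eq_Ioc h1 h2, setIntegral_union _ measurableSet_Ioc
    (adm_int hh c).integrableOn (adm_int hh c).integrableOn]
  rw [Set.disjoint_left]
  intro t ht1 ht2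
  exact absurd ht1.2 (not_le.2 ht2.1)

theorem phi_mono {F G : ℝ → ℝ} (hF : Adm F) (hG : Adm G) {c a b : ℝ}
    (H : ∀ t, a < t → t ≤ b → F t ≤ G t) : phi F c a b ≤ phi G c a b :=
  setIntegral_mono_on (adm_int hF c).integrableOn (adm_int hG c).integrableOn measurableSet_Ioc
    fun t ht => sub_le_sub_right (H t ht.1 ht.2) c

theorem phi_shift (h : ℝ → ℝ) (c c' a b : ℝ) :
    phi (fun x => h x + c) c' a b = phi h (c' - c) a b := by
  unfold phi
  congr 1
  funext t
  ring

/-- it suffices to bound the smaller numbers -/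
theorem le_of_lt_le {x y : ℝ} (h : ∀ c, c < x → c ≤ y) : x ≤ y := by
  by_contra hc
  push Not at hc
  have := h ((x + y) / 2) (by linarith)
  linarith

/-- the Gaussian density -/
noncomputable def p (t : ℝ) : ℝ := gaussianPDFReal 0 1 t

theorem p_eq (t : ℝ) : p t = (Real.sqrt (2 * Real.pi))⁻¹ * Real.exp (-t ^ 2 / 2) := by
  unfold p gaussianPDFReal
  simp

theorem p_nonneg (t : ℝ) : 0 ≤ p t := by
  rw [p_eq]
  positivity

theorem p_cont : Continuous p := by
  have : p = fun t => (Real.sqrt (2 * Real.pi))⁻¹ * Real.exp (-t ^ 2 / 2) := funext p_eq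
  rw [this]
  fun_prop

theorem p_add (s a : ℝ) : p (s + a) = Real.exp (-a * s - a ^ 2 / 2) * p s := by
  rw [p_eq, p_eq]
  have h1 : Real.exp (-(s + a) ^ 2 / 2) = Real.exp (-a * s - a ^ 2 / 2) * Real.exp (-s ^ 2 / 2) := by
    rw [← Real.exp_add]
    congr 1
    ring
  rw [h1]
  ring

theorem phi_eq (h : ℝ → ℝ) (c : ℝ) {a b : ℝ} (hab : a ≤ b) :
    phi h c a b = ∫ t in a..b, p t * (h t - c) := by
  unfold phi g1
  rw [← integral_indicator measurableSet_Ioc,
    integral_gaussianReal_eq_integral_smul (by norm_num : (1 : ℝ≥0) ≠ 0),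
    intervalIntegral.integral_of_le hab, ← integral_indicator measurableSet_Ioc]
  congr 1
  funext t
  by_cases ht : t ∈ Ioc a b
  · rw [indicator_of_mem ht, indicator_of_mem ht, smul_eq_mul]
    rfl
  · rw [indicator_of_notMem ht, indicator_of_notMem ht, smul_zero]

/-- integration by parts against a decreasing weight -/
theorem weight_nonneg (f : ℝ → ℝ) (hf : Continuous f) {A b a : ℝ} (hAb : A ≤ b) (ha : 0 ≤ a)
    (h : ∀ s, A ≤ s → 0 ≤ ∫ t in A..s, f t) :
    0 ≤ ∫ s in A..b, Real.exp (-a * s - a ^ 2 / 2) * f s := by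
  have hu : ∀ x ∈ uIcc A b, HasDerivAt (fun s : ℝ => Real.exp (-a * s - a ^ 2 / 2))
      (Real.exp (-a * x - a ^ 2 / 2) * (-a)) x := by
    intro x _
    have h1 : HasDerivAt (fun s : ℝ => -a * s - a ^ 2 / 2) (-a * 1) x :=
      ((hasDerivAt_id' x).const_mul (-a)).sub_const _
    rw [mul_one] at h1
    exact h1.exp
  have hv : ∀ x ∈ uIcc A b, HasDerivAt (fun s : ℝ => ∫ t in A..s, f t) (f x) x := fun x _ =>
    (hf.integral_hasStrictDerivAt A x).hasDerivAt
  have hparts := intervalIntegral.integral_mul_deriv_eq_deriv_mul hu hv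
    (by apply Continuous.intervalIntegrable; fun_prop) (hf.intervalIntegrable _ _)
  rw [hparts]
  have h2 : ∫ t in A..A, f t = 0 := intervalIntegral.integral_same
  have h3 : 0 ≤ ∫ x in A..b, Real.exp (-a * x - a ^ 2 / 2) * a * ∫ t in A..x, f t :=
    intervalIntegral.integral_nonneg hAb fun x hx =>
      mul_nonneg (mul_nonneg (Real.exp_pos _).le ha) (h x hx.1)
  have h4 : ∫ x in A..b, Real.exp (-a * x - a ^ 2 / 2) * (-a) * ∫ t in A..x, f t =
      -∫ x in A..b, Real.exp (-a * x - a ^ 2 / 2) * a * ∫ t in A..x, f t := by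
    rw [← intervalIntegral.integral_neg]
    congr 1
    funext x
    ring
  rw [h4, h2, mul_zero, sub_zero, sub_neg_eq_add]
  exact add_nonneg (mul_nonneg (Real.exp_pos _).le (h b hAb)) h3

section

variable (h1 : S_KEY1) (h2 : S_KEY2)
include h1 h2

theorem mono {F : ℝ → ℝ} (hF : Adm F) : Monotone (iso F) := by
  intro x y hxy
  refine le_of_lt_le fun c hc => ?_
  obtain ⟨A, hA, hA2, _⟩ := h1 F hF x c hc
  exact h2 F hF y c A (hA.trans_le hxy) fun b hb => hA2 b ((hA.le.trans hxy).trans hb)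

theorem bdd {F : ℝ → ℝ} (hF : Adm F) (B : ℝ) (hB : ∀ x, |F x| ≤ B) (x : ℝ) : |iso F x| ≤ B := by
  rw [abs_le]
  constructor
  · exact h2 F hF x (-B) (x - 1) (by linarith) fun b _ =>
      phi_nonneg fun t _ _ => (abs_le.1 (hB t)).1
  · refine le_of_lt_le fun c hc => ?_
    obtain ⟨A, _, _, hA⟩ := h1 F hF x c hc
    exact hA.trans (abs_le.1 (hB A)).2

theorem const_le {F : ℝ → ℝ} (hF : Adm F) (c x : ℝ) : iso (fun x => F x + c) x ≤ iso F x + c := by
  refine le_of_lt_le fun c' hc' => ?_
  obtain ⟨A, hA, hA2, _⟩ := h1 _ (adm_add hF c) x c' hc'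
  have := h2 F hF x (c' - c) A hA fun b hb => by
    rw [← phi_shift]
    exact hA2 b (hA.le.trans hb)
  linarith

theorem const {F : ℝ → ℝ} (hF : Adm F) (c : ℝ) : iso (fun x => F x + c) = fun x => iso F x + c := by
  funext x
  apply le_antisymm (const_le h1 h2 hF c x)
  have h3 := const_le h1 h2 (adm_add hF c) (-c) x
  have h4 : (fun x => F x + c + -c) = F := by
    funext x
    ring
  rw [h4] at h3
  linarith

theorem fix {F : ℝ → ℝ} (hF : Adm F) (hm : Monotone F) : iso F = F := by
  funext y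
  apply le_antisymm
  · refine le_of_lt_le fun c hc => ?_
    obtain ⟨A, hA, _, hA3⟩ := h1 F hF y c hc
    exact hA3.trans (hm hA.le)
  · obtain ⟨K, hK⟩ := hF.1
    refine le_of_forall_pos_le_add fun ε hε => ?_
    have hK0 : (0 : ℝ) < K + 1 := by positivity
    have hδ : 0 < ε / (K + 1) := by positivity
    have h3 : F (y - ε / (K + 1)) ≤ iso F y :=
      h2 F hF y _ (y - ε / (K + 1)) (by linarith) fun b _ =>
        phi_nonneg fun t ht _ => hm ht.le
    have h4 := hK.dist_le_mul y (y - ε / (K + 1))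
    rw [Real.dist_eq, Real.dist_eq, sub_sub_cancel, abs_of_pos hδ] at h4
    have h5 : (K : ℝ) * (ε / (K + 1)) ≤ ε := by
      rw [mul_div_assoc', div_le_iff₀ hK0]
      nlinarith [K.2]
    have h6 := (abs_le.1 h4).2
    linarith

theorem lower {a : ℝ} (ha : 0 ≤ a) {F G : ℝ → ℝ} (hF : Adm F) (hG : Adm G)
    (H : ∀ x, G x ≤ F (x + a)) (x : ℝ) : iso G x ≤ iso F (x + a) := by
  refine le_of_lt_le fun c hc => ?_
  obtain ⟨A, hA, hA2, _⟩ := h1 G hG x c hc
  refine h2 F hF (x + a) c (A + a) (by linarith) fun b hb => ?_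
  have hFc := adm_cont hF
  have hGc := adm_cont hG
  have hpc := p_cont
  rw [phi_eq F c (by linarith : A + a ≤ b)]
  have e1 : ∫ t in (A + a)..b, p t * (G (t - a) - c) ≤ ∫ t in (A + a)..b, p t * (F t - c) := by
    refine intervalIntegral.integral_mono_on (by linarith) ?_ ?_ fun t _ => ?_
    · apply Continuous.intervalIntegrable
      fun_prop
    · apply Continuous.intervalIntegrable
      fun_prop
    · have := H (t - a)
      rw [sub_add_cancel] at this
      exact mul_le_mul_of_nonneg_left (sub_le_sub_right this c) (p_nonneg t)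
  refine le_trans ?_ e1
  have e2 : ∫ t in (A + a)..b, p t * (G (t - a) - c) =
      ∫ s in A..(b - a), Real.exp (-a * s - a ^ 2 / 2) * (p s * (G s - c)) := by
    have e3 := intervalIntegral.integral_comp_add_right
      (fun t => p t * (G (t - a) - c)) a (a := A) (b := b - a)
    rw [sub_add_cancel] at e3
    rw [← e3]
    congr 1
    funext s
    rw [p_add, add_sub_cancel_right]
    ring
  rw [e2]
  refine weight_nonneg _ (by fun_prop) (by linarith) ha fun s hs => ?_
  rw [← phi_eq G c hs]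
  exact hA2 s hs

theorem upper {a : ℝ} {F G : ℝ → ℝ} (hF : Adm F) (hG : Adm G)
    (H : ∀ x c, 0 ≤ c → c ≤ a → F (x + c) ≤ G x) (x c' : ℝ) (hc0 : 0 ≤ c') (hca : c' ≤ a) :
    iso F (x + c') ≤ iso G x := by
  refine le_of_lt_le fun c hc => ?_
  obtain ⟨A, hA, hA2, hA3⟩ := h1 F hF (x + c') c hc
  refine h2 G hG x c (A - c') (by linarith) fun b hb => ?_
  have e1 : ∀ u, A - c' < u → u ≤ A → c ≤ G u := by
    intro u hu1 hu2
    have := H u (A - u) (by linarith) (by linarith)
    rw [add_sub_cancel] at this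
    exact hA3.trans this
  rcases le_or_gt b A with hbA | hbA
  · exact phi_nonneg fun t ht1 ht2 => e1 t ht1 (ht2.trans hbA)
  · rw [phi_add hG (by linarith : A - c' ≤ A) hbA.le]
    have e2 : 0 ≤ phi G c (A - c') A := phi_nonneg fun t ht1 ht2 => e1 t ht1 ht2
    have e3 : phi F c A b ≤ phi G c A b := phi_mono hF hG fun t _ _ => by
      have := H t 0 le_rfl (hc0.trans hca)
      rwa [add_zero] at this
    have e4 := hA2 b hbA.le
    linarith

theorem lip {F : ℝ → ℝ} (hF : Adm F) (K : ℝ≥0) (hK : LipschitzWith K F) :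
    LipschitzWith (1 * K) (iso F) := by
  rw [one_mul]
  have key : ∀ x a : ℝ, 0 ≤ a → |iso F x - iso F (x + a)| ≤ K * a := by
    intro x a ha
    have e1 : iso F x ≤ iso F (x + a) := mono h1 h2 hF (by linarith)
    have e2 : iso F (x + a) ≤ iso (fun x => F x + K * a) x := by
      refine upper h1 h2 hF (adm_add hF _) (a := a) (fun x c hc0 hca => ?_) x a ha le_rfl
      have := hK.dist_le_mul (x + c) x
      rw [Real.dist_eq, Real.dist_eq, add_sub_cancel_left, abs_of_nonneg hc0] at this
      have h3 := (abs_le.1 this).2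
      have h4 : (K : ℝ) * c ≤ K * a := mul_le_mul_of_nonneg_left hca K.2
      linarith
    rw [const h1 h2 hF] at e2
    rw [abs_le]
    constructor <;> linarith
  refine LipschitzWith.of_dist_le_mul fun x y => ?_
  rw [Real.dist_eq, Real.dist_eq]
  rcases le_total x y with hxy | hxy
  · have := key x (y - x) (by linarith)
    rw [add_sub_cancel] at this
    rw [abs_sub_comm x y, abs_of_nonneg (by linarith : 0 ≤ y - x)]
    exact this
  · have := key y (x - y) (by linarith)
    rw [add_sub_cancel] at this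
    rw [abs_sub_comm (iso F x), abs_of_nonneg (by linarith : 0 ≤ x - y)]
    exact this

end

end Line

open Line in
theorem t_LINE : S_KEY1 → S_KEY2 → S_INT → S_LINE := by
  intro h1 h2 h3
  exact
    { lip := fun K F hF hK => lip h1 h2 hF K hK
      bdd := fun B F hF hB => bdd h1 h2 hF B hB
      const := fun c F hF => const h1 h2 hF c
      int := fun F hF => h3 F hF (mono h1 h2 hF) (by
        obtain ⟨K, hK⟩ := hF.1
        exact (lip h1 h2 hF K hK).continuous)
      mono_out := fun F hF => mono h1 h2 hF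
      fix := fun F hF hm => fix h1 h2 hF hm
      lower := fun a ha F G hF hG H x => lower h1 h2 ha hF hG H x
      upper := fun a _ F G hF hG H x c hc hca => upper h1 h2 hF hG H x c hc hca }

end R34.DP
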